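import Pool.Agent.Helper6.NS.Geo

/-! The difference of two orthogonal exceptional line bundles has square `-2`. -/

namespace Pool.Agent.Helper73.KU

open CategoryTheory CategoryTheory.Limits CategoryTheory.Pretriangulated Module
open CategoryTheory.Triangulated
open Pool.Agent.Helper6.KE Pool.Agent.Helper6.NS

universe v₁ u₁ v u w

variable {C : Type u} [Category.{v} C] [Preadditive C] [HasZeroObject C] [HasShift C ℤ]
  [∀ n : ℤ, (shiftFunctor C n).Additive] [Pretriangulated C]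

theorem chi_zero {K : Type w} [Field K] [Linear K C] {X Y : C} (h : ∀ n, HV X Y n) :
    chi K X Y = 0 := by
  unfold chi
  rw [finsum_eq_zero_of_forall_eq_zero]
  intro n
  have hs : Subsingleton (X ⟶ Y⟦n⟧) := ⟨fun a b => by rw [h n a, h n b]⟩
  rw [finrank_zero_of_subsingleton]
  simp

variable {K : Type w} [Field K] [Linear K C] [∀ n : ℤ, (shiftFunctor C n).Linear K]

theorem chi_one {X : C} (h1 : finrank K (X ⟶ X) = 1) (h : ∀ n, n ≠ 0 → HV X X n) :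
    chi K X X = 1 := by
  unfold chi
  rw [finsum_eq_single _ (0 : ℤ)]
  · have : finrank K (X ⟶ X⟦(0 : ℤ)⟧) = finrank K (X ⟶ X) :=
      (Linear.homCongr K (Iso.refl X) ((shiftFunctorZero C ℤ).app X)).finrank_eq
    rw [this, h1]
    simp
  · intro n hn
    have hs : Subsingleton (X ⟶ X⟦n⟧) := ⟨fun a b => by rw [h n hn a, h n hn b]⟩
    rw [finrank_zero_of_subsingleton]
    simp

variable {A : Type u₁} [Category.{v₁} A] [Abelian A]

/-- G4b -/
theorem sq_diff (X : Unnodal (C := C) K A) (L : Fin 10 → A) (hL : ∀ k, X.IsLine (L k))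
    (hexc : IsExcOrth K (fun k => X.S.ι.obj (L k))) (i j : Fin 10) (hij : i ≠ j) :
    X.N.inter (X.N.c₁ (X.S.ι.obj (L i)) - X.N.c₁ (X.S.ι.obj (L j)))
      (X.N.c₁ (X.S.ι.obj (L i)) - X.N.c₁ (X.S.ι.obj (L j))) = -2 := by
  have h1 : ∀ k, chi K (X.S.ι.obj (L k)) (X.S.ι.obj (L k)) = 1 := fun k =>
    chi_one (hexc.one k) (fun n hn => hexc.exc k n hn)
  have h2 : chi K (X.S.ι.obj (L i)) (X.S.ι.obj (L j)) = 0 :=
    chi_zero (fun n => hexc.orth i j hij n)
  have e1 := X.N.riemannRoch (X.S.ι.obj (L i)) (X.S.ι.obj (L i))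
  have e2 := X.N.riemannRoch (X.S.ι.obj (L j)) (X.S.ι.obj (L j))
  have e3 := X.N.riemannRoch (X.S.ι.obj (L i)) (X.S.ι.obj (L j))
  rw [h1, (hL i).rk_one] at e1
  rw [h1, (hL j).rk_one] at e2
  rw [h2, (hL i).rk_one, (hL j).rk_one] at e3
  have hs := X.N.symm (X.N.c₁ (X.S.ι.obj (L j))) (X.N.c₁ (X.S.ι.obj (L i)))
  simp only [map_sub, LinearMap.sub_apply]
  rw [hs]
  push_cast at e1 e2 e3
  have : ((X.N.inter (X.N.c₁ (X.S.ι.obj (L i))) (X.N.c₁ (X.S.ι.obj (L i))) -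
      X.N.inter (X.N.c₁ (X.S.ι.obj (L i))) (X.N.c₁ (X.S.ι.obj (L j))) -
      (X.N.inter (X.N.c₁ (X.S.ι.obj (L i))) (X.N.c₁ (X.S.ι.obj (L j))) -
      X.N.inter (X.N.c₁ (X.S.ι.obj (L j))) (X.N.c₁ (X.S.ι.obj (L j)))) : ℤ) : ℝ) =
      ((-2 : ℤ) : ℝ) := by
    push_cast
    linarith
  exact_mod_cast this

end Pool.Agent.Helper73.KU
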