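import Pool.Agent.Helper6.NS.Defs

/-! Tilt of a t-structure at two simple objects, upwards. -/

namespace Pool.Agent.Helper73.KU

open CategoryTheory CategoryTheory.Limits CategoryTheory.Pretriangulated Module
open CategoryTheory.Triangulated
open Pool.Agent.Helper6.KE Pool.Agent.Helper6.NS
open scoped ZeroObject

universe v u w

variable {C : Type u} [Category.{v} C] [Preadditive C] [HasZeroObject C] [HasShift C ℤ]
  [∀ n : ℤ, (shiftFunctor C n).Additive] [Pretriangulated C]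

theorem dist_of_iso₃ {X Y Z Z' : C} (e : Z ≅ Z') (f : X ⟶ Y) (g : Y ⟶ Z) (h : Z ⟶ X⟦(1 : ℤ)⟧)
    (mem : Triangle.mk f g h ∈ distTriang C) :
    Triangle.mk f (g ≫ e.hom) (e.inv ≫ h) ∈ distTriang C := by
  refine isomorphic_distinguished _ mem _ ?_
  refine Triangle.isoMk _ _ (Iso.refl _) (Iso.refl _) e.symm ?_ ?_ ?_
  · change f ≫ 𝟙 _ = 𝟙 _ ≫ f
    simp
  · change (g ≫ e.hom) ≫ e.inv = 𝟙 _ ≫ g
    simp
  · change (e.inv ≫ h) ≫ (𝟙 X)⟦(1 : ℤ)⟧' = e.inv ≫ h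
    simp

theorem hv_hom {X Y : C} (h : HV X Y 0) (f : X ⟶ Y) : f = 0 := by
  have := h (f ≫ (shiftFunctorZero C ℤ).inv.app Y)
  rw [← cancel_mono ((shiftFunctorZero C ℤ).inv.app Y), this, zero_comp]

theorem hv_of_hom {X Y : C} (h : ∀ f : X ⟶ Y, f = 0) : HV X Y 0 := by
  intro f
  have := h (f ≫ (shiftFunctorZero C ℤ).hom.app Y)
  rw [← cancel_mono ((shiftFunctorZero C ℤ).hom.app Y), this, zero_comp]

theorem hv_t (t : TStructure C) {X Y : C} (a b n : ℤ) (hX : t.IsLE X a) (hY : t.IsGE Y b)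
    (h : a + n < b) : HV X Y n := by
  intro f
  have := t.isGE_shift Y b n (b - n) (by ring)
  exact t.zero f a (b - n) (by omega)

/-- vanishing for a fibre -/
theorem hv_fib {F X T Y : C} {i : F ⟶ X} {f : X ⟶ T} {δ : T ⟶ F⟦(1 : ℤ)⟧}
    (mem : Triangle.mk i f δ ∈ distTriang C) {n m : ℤ} (hm : m = n + 1) (hX : HV X Y n)
    (hT : HV T Y m) : HV F Y n := by
  intro φ
  obtain ⟨(g : X ⟶ Y⟦n⟧), (hg : φ = i ≫ g)⟩ := yo₁' _ mem n m hm hT φ
  rw [hg, hX g, comp_zero]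

theorem smp_shift {t : TStructure C} {T : C} {p : ℤ} (h : Smp t T p) (a q : ℤ) (hq : a + q = p) :
    Smp t (T⟦a⟧) q := by
  have h1 := h.le
  have h2 := h.ge
  refine ⟨t.isLE_shift T p a q hq, t.isGE_shift T p a q hq, ?_⟩
  intro X F i f δ mem hX hf
  have mem' : Triangle.mk ((-a).negOnePow • i⟦-a⟧') ((-a).negOnePow • f⟦-a⟧')
      ((-a).negOnePow • δ⟦-a⟧' ≫ (shiftFunctorComm C (1 : ℤ) (-a)).hom.app F) ∈ distTriang C :=
    Triangle.shift_distinguished _ mem (-a)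
  let e : (T⟦a⟧)⟦-a⟧ ≅ T := (shiftEquiv C a).unitIso.symm.app T
  have mem2 := dist_of_iso₃ e _ _ _ mem'
  have hX' := t.isLE_shift X q (-a) p (by omega)
  have h3 : t.IsLE (F⟦-a⟧) p := by
    refine h.epi _ _ _ mem2 hX' ?_
    intro h0
    apply hf
    apply (shiftFunctor C (-a)).map_injective
    rw [Functor.map_zero]
    have h4 : (-a).negOnePow • f⟦-a⟧' = 0 := by
      rw [← cancel_mono e.hom, h0, zero_comp]
    have h5 : (-a).negOnePow • ((-a).negOnePow • f⟦-a⟧') = f⟦-a⟧' := by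
      rw [smul_smul, Int.units_mul_self, one_smul]
    rw [← h5, h4, smul_zero]
  exact t.isLE_of_shift F q (-a) p (by omega)

/-- the right orthogonal is closed under extensions -/
theorem perp_ext (S : ObjectProperty C) {A B G : C} {f : A ⟶ B} {g : B ⟶ G}
    {h : G ⟶ A⟦(1 : ℤ)⟧} (mem : Triangle.mk f g h ∈ distTriang C)
    (hA : ∀ X, S X → ∀ φ : X ⟶ A, φ = 0) (hG : ∀ X, S X → ∀ φ : X ⟶ G, φ = 0) :
    ∀ X, S X → ∀ φ : X ⟶ B, φ = 0 := by
  intro X hX φ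
  obtain ⟨(ψ : X ⟶ A), (hψ : φ = ψ ≫ f)⟩ := Triangle.coyoneda_exact₂ _ mem φ (hG X hX _)
  have : ψ = 0 := hA X hX ψ
  rw [hψ, this, zero_comp]

/-- decompositions with respect to `S` and its right orthogonal are inherited by extensions -/
theorem dec_ext [IsTriangulated C] (S : ObjectProperty C) {F B G : C} {i : F ⟶ B} {f : B ⟶ G}
    {δ : G ⟶ F⟦(1 : ℤ)⟧} (mem : Triangle.mk i f δ ∈ distTriang C)
    (hG : ∀ X, S X → ∀ φ : X ⟶ G, φ = 0)
    (hF : ∃ (X Y : C) (_ : S X) (_ : ∀ X, S X → ∀ φ : X ⟶ Y, φ = 0)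
      (f : X ⟶ F) (g : F ⟶ Y) (h : Y ⟶ X⟦(1 : ℤ)⟧), Triangle.mk f g h ∈ distTriang C) :
    ∃ (X Y : C) (_ : S X) (_ : ∀ X, S X → ∀ φ : X ⟶ Y, φ = 0)
      (f : X ⟶ B) (g : B ⟶ Y) (h : Y ⟶ X⟦(1 : ℤ)⟧), Triangle.mk f g h ∈ distTriang C := by
  obtain ⟨X, Y, hX, hY, a, b, c, mem1⟩ := hF
  obtain ⟨Z, v, w, mem2⟩ := distinguished_cocone_triangle (a ≫ i)
  have o := someOctahedron rfl mem1 mem mem2
  refine ⟨X, Z, hX, ?_, _, _, _, mem2⟩
  exact perp_ext S o.mem hY hG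

/-- the aisle of the tilted t-structure -/
def TLE (t : TStructure C) (P Q : C) (d n : ℤ) : ObjectProperty C :=
  fun X => t.IsLE X n ∧ HV X P (d - n) ∧ HV X Q (d - n)

theorem TLE_iso {t : TStructure C} {P Q : C} {d n : ℤ} {X Y : C} (e : X ≅ Y)
    (h : TLE t P Q d n X) : TLE t P Q d n Y := by
  obtain ⟨h1, h2, h3⟩ := h
  exact ⟨t.isLE_of_iso e n, h2.of_iso_left e.symm, h3.of_iso_left e.symm⟩

theorem TLE_shift {t : TStructure C} {P Q : C} {d n a n' : ℤ} (hn : a + n' = n) {X : C}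
    (h : TLE t P Q d n X) : TLE t P Q d n' (X⟦a⟧) := by
  obtain ⟨h1, h2, h3⟩ := h
  exact ⟨t.isLE_shift X n a n' hn, h2.to_shift a _ (by omega), h3.to_shift a _ (by omega)⟩

variable {K : Type w} [Field K] [Linear K C]

theorem finrank_lt {F A T Y : C} (fd : ∀ X Y : C, FiniteDimensional K (X ⟶ Y)) {i : F ⟶ A}
    {f : A ⟶ T} {δ : T ⟶ F⟦(1 : ℤ)⟧} (mem : Triangle.mk i f δ ∈ distTriang C)
    (hT : ∀ g : T⟦(-1 : ℤ)⟧ ⟶ Y, g = 0) :
    finrank K (F ⟶ Y) ≤ finrank K (A ⟶ Y) ∧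
      (∀ φ : A ⟶ Y, φ ≠ 0 → i ≫ φ = 0 → finrank K (F ⟶ Y) < finrank K (A ⟶ Y)) := by
  have := fd A Y
  have := fd F Y
  let R : (A ⟶ Y) →ₗ[K] (F ⟶ Y) := Linear.leftComp K Y i
  have hR : Function.Surjective R := by
    intro φ
    obtain ⟨g, hg⟩ := yo₁ _ mem hT φ
    exact ⟨g, hg.symm⟩
  have h1 := LinearMap.finrank_range_add_finrank_ker R
  rw [LinearMap.range_eq_top.2 hR, finrank_top] at h1
  refine ⟨by omega, ?_⟩
  intro φ hφ h0
  have h2 : 0 < finrank K (LinearMap.ker R) := by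
    rw [finrank_pos_iff_exists_ne_zero]
    refine ⟨⟨φ, ?_⟩, ?_⟩
    · exact h0
    · intro h
      exact hφ (congrArg Subtype.val h)
  omega

/-- decomposition of the objects that are `≤ 0` -/
theorem dec_le [IsTriangulated C] (fd : ∀ X Y : C, FiniteDimensional K (X ⟶ Y))
    (t : TStructure C) (P Q : C) (d : ℤ) (hP : Smp t P d) (hQ : Smp t Q d)
    (hPP1 : HV P P 1) (hPQ1 : HV P Q 1) (hQP1 : HV Q P 1) (hQQ1 : HV Q Q 1) (N : ℕ) :
    ∀ A : C, t.IsLE A 0 → finrank K (A ⟶ P⟦d⟧) + finrank K (A ⟶ Q⟦d⟧) ≤ N →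
    ∃ (X Y : C) (_ : TLE t P Q d 0 X) (_ : ∀ X, TLE t P Q d 0 X → ∀ φ : X ⟶ Y, φ = 0)
      (f : X ⟶ A) (g : A ⟶ Y) (h : Y ⟶ X⟦(1 : ℤ)⟧), Triangle.mk f g h ∈ distTriang C := by
  induction N with
  | zero =>
    intro A hA hN
    have hfP := fd A (P⟦d⟧)
    have hfQ := fd A (Q⟦d⟧)
    refine ⟨A, 0, ⟨hA, ?_, ?_⟩, ?_, 𝟙 A, 0, 0, contractible_distinguished A⟩
    · rw [sub_zero]
      intro f
      have h0 : finrank K (A ⟶ P⟦d⟧) = 0 := by omega
      have := finrank_zero_iff.1 h0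
      exact Subsingleton.elim _ _
    · rw [sub_zero]
      intro f
      have h0 : finrank K (A ⟶ Q⟦d⟧) = 0 := by omega
      have := finrank_zero_iff.1 h0
      exact Subsingleton.elim _ _
    · intro X _ φ
      exact (isZero_zero C).eq_of_tgt _ _
  | succ N ih =>
    intro A hA hN
    have key : ∀ (T : C), Smp t T d → HV T P 1 → HV T Q 1 → (T = P ∨ T = Q) →
        (∃ f : A ⟶ T⟦d⟧, f ≠ 0) →
        ∃ (X Y : C) (_ : TLE t P Q d 0 X) (_ : ∀ X, TLE t P Q d 0 X → ∀ φ : X ⟶ Y, φ = 0)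
          (f : X ⟶ A) (g : A ⟶ Y) (h : Y ⟶ X⟦(1 : ℤ)⟧), Triangle.mk f g h ∈ distTriang C := by
      intro T hT hTP hTQ hTT hex
      obtain ⟨f, hf⟩ := hex
      obtain ⟨F, i, δ, mem⟩ := distinguished_cocone_triangle₁ f
      have hF : t.IsLE F 0 := (smp_shift hT d 0 (by omega)).epi _ _ _ mem hA hf
      have hPv : ∀ g : T⟦d⟧⟦(-1 : ℤ)⟧ ⟶ P⟦d⟧, g = 0 := by
        intro g
        exact (hTP.to_shift d (d + 1) (by omega)).shift_shift (-1) d (by omega) g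
      have hQv : ∀ g : T⟦d⟧⟦(-1 : ℤ)⟧ ⟶ Q⟦d⟧, g = 0 := by
        intro g
        exact (hTQ.to_shift d (d + 1) (by omega)).shift_shift (-1) d (by omega) g
      have h1 := finrank_lt (K := K) fd mem hPv
      have h2 := finrank_lt (K := K) fd mem hQv
      have h0 : i ≫ f = 0 := comp_distTriang_mor_zero₁₂ _ mem
      have hlt : finrank K (F ⟶ P⟦d⟧) + finrank K (F ⟶ Q⟦d⟧) <
          finrank K (A ⟶ P⟦d⟧) + finrank K (A ⟶ Q⟦d⟧) := by
        rcases hTT with rfl | rfl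
        · have := h1.2 f hf h0
          omega
        · have := h2.2 f hf h0
          omega
      refine dec_ext _ mem ?_ (ih F hF (by omega))
      intro X hX φ
      rcases hTT with rfl | rfl
      · have := hX.2.1
        rw [sub_zero] at this
        exact this φ
      · have := hX.2.2
        rw [sub_zero] at this
        exact this φ
    by_cases hexP : ∃ f : A ⟶ P⟦d⟧, f ≠ 0
    · exact key P hP hPP1 hPQ1 (Or.inl rfl) hexP
    by_cases hexQ : ∃ f : A ⟶ Q⟦d⟧, f ≠ 0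
    · exact key Q hQ hQP1 hQQ1 (Or.inr rfl) hexQ
    push Not at hexP hexQ
    refine ⟨A, 0, ⟨hA, ?_, ?_⟩, ?_, 𝟙 A, 0, 0, contractible_distinguished A⟩
    · rw [sub_zero]
      exact hexP
    · rw [sub_zero]
      exact hexQ
    · intro X _ φ
      exact (isZero_zero C).eq_of_tgt _ _

/-- the tilted t-structure -/
noncomputable def tiltUp [IsTriangulated C] (fd : ∀ X Y : C, FiniteDimensional K (X ⟶ Y))
    (t : TStructure C) (P Q : C) (d : ℤ) (hP : Smp t P d) (hQ : Smp t Q d)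
    (hPP1 : HV P P 1) (hPQ1 : HV P Q 1) (hQP1 : HV Q P 1) (hQQ1 : HV Q Q 1) :
    TStructure C where
  le n := TLE t P Q d n
  ge n := fun Y => ∀ X, TLE t P Q d (n - 1) X → ∀ φ : X ⟶ Y, φ = 0
  le_isClosedUnderIsomorphisms n := ⟨fun e h => TLE_iso e h⟩
  ge_isClosedUnderIsomorphisms n := ⟨fun {Y Y'} e h => by
    intro X hX φ
    have := h X hX (φ ≫ e.inv)
    rw [← cancel_mono e.inv, this, zero_comp]⟩
  le_shift n a n' hn X hX := TLE_shift hn hX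
  ge_shift n a n' hn Y hY := by
    intro X hX φ
    have h1 : TLE t P Q d (n - 1) (X⟦-a⟧) := TLE_shift (by omega) hX
    let e : (Y⟦a⟧)⟦-a⟧ ≅ Y := (shiftEquiv C a).unitIso.symm.app Y
    have h2 := hY _ h1 (φ⟦-a⟧' ≫ e.hom)
    apply (shiftFunctor C (-a)).map_injective
    rw [Functor.map_zero, ← cancel_mono e.hom, h2, zero_comp]
  zero' X Y f hX hY := by
    refine hY X ?_ f
    simpa using hX
  le_zero_le := by
    intro X hX
    have h1 := hX.1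
    have hP1 := hP.ge
    have hQ1 := hQ.ge
    refine ⟨t.isLE_of_le X 0 1, ?_, ?_⟩
    · exact hv_t t 0 d (d - 1) h1 hP1 (by omega)
    · exact hv_t t 0 d (d - 1) h1 hQ1 (by omega)
  ge_one_le := by
    intro Y hY X hX φ
    refine hY X ?_ φ
    have h1 := hX.1
    have hP1 := hP.ge
    have hQ1 := hQ.ge
    refine ⟨t.isLE_of_le X (0 - 1) (1 - 1), ?_, ?_⟩
    · exact hv_t t (0 - 1) d (d - (1 - 1)) h1 hP1 (by omega)
    · exact hv_t t (0 - 1) d (d - (1 - 1)) h1 hQ1 (by omega)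
  exists_triangle_zero_one A := by
    obtain ⟨X0, Y0, hX0, hY0, f0, g0, h0, mem0⟩ := t.exists_triangle_zero_one A
    have hX0' : t.IsLE X0 0 := ⟨hX0⟩
    have hY0' : t.IsGE Y0 1 := ⟨hY0⟩
    have h1 := dec_le (K := K) fd t P Q d hP hQ hPP1 hPQ1 hQP1 hQQ1 _ X0 hX0' le_rfl
    have h2 := dec_ext _ mem0 (fun X hX φ => by
      have := hX.1
      exact t.zero φ 0 1) h1
    simpa using h2

/-- M2: tilt at two simple objects, upwards. -/
theorem tilt_up [∀ n : ℤ, (shiftFunctor C n).Linear K] [IsTriangulated C]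
    (fd : ∀ X Y : C, FiniteDimensional K (X ⟶ Y))
    (t : TStructure C) (P Q : C) (d : ℤ) (hP : Smp t P d) (hQ : Smp t Q d)
    (hPQ : HV P Q 0) (hQP : HV Q P 0) (hPP1 : HV P P 1) (hPQ1 : HV P Q 1) (hQP1 : HV Q P 1)
    (hQQ1 : HV Q Q 1) (hP1 : finrank K (P ⟶ P) = 1) (hQ1 : finrank K (Q ⟶ Q) = 1) :
    ∃ t' : TStructure C,
      (∀ X n, t'.IsLE X n ↔ t.IsLE X n ∧ HV X P (d - n) ∧ HV X Q (d - n)) ∧
      Smp t' P (d + 1) ∧ Smp t' Q (d + 1) ∧
      ∀ T p, Smp t T p → (∀ m, HV T P m) → (∀ m, HV T Q m) → Smp t' T p := by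
  let t' := tiltUp (K := K) fd t P Q d hP hQ hPP1 hPQ1 hQP1 hQQ1
  have hle : ∀ X n, t'.IsLE X n ↔ t.IsLE X n ∧ HV X P (d - n) ∧ HV X Q (d - n) := by
    intro X n
    rw [← t'.le_iff_isLE]
    exact Iff.rfl
  have hge : ∀ X n, t'.IsGE X n ↔ ∀ Z, TLE t P Q d (n - 1) Z → ∀ φ : Z ⟶ X, φ = 0 := by
    intro X n
    rw [← t'.ge_iff_isGE]
    exact Iff.rfl
  -- the two simple objects move up
  have key : ∀ T T' : C, Smp t T d → Smp t T' d → HV T T' 0 → finrank K (T ⟶ T) = 1 →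
      (T = P ∧ T' = Q ∨ T = Q ∧ T' = P) → Smp t' T (d + 1) := by
    intro T T' hT hT' hTT' h1 hor
    have hTle := hT.le
    have hTge := hT.ge
    have hT'ge := hT'.ge
    have hle2 : ∀ X n, t'.IsLE X n ↔ t.IsLE X n ∧ HV X T (d - n) ∧ HV X T' (d - n) := by
      intro X n
      rw [hle]
      rcases hor with ⟨rfl, rfl⟩ | ⟨rfl, rfl⟩
      · exact Iff.rfl
      · constructor
        · exact fun h => ⟨h.1, h.2.2, h.2.1⟩
        · exact fun h => ⟨h.1, h.2.2, h.2.1⟩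
    refine ⟨?_, ?_, ?_⟩
    · rw [hle2]
      exact ⟨t.isLE_of_le T d (d + 1), hv_t t d d _ hTle hTge (by omega),
        hv_t t d d _ hTle hT'ge (by omega)⟩
    · rw [hge]
      intro Z hZ φ
      have e : d - (d + 1 - 1) = 0 := by ring
      rw [TLE, e] at hZ
      rcases hor with ⟨rfl, rfl⟩ | ⟨rfl, rfl⟩
      · exact hv_hom hZ.2.1 φ
      · exact hv_hom hZ.2.2 φ
    · intro X F i f δ mem hX hf
      rw [hle2] at hX ⊢
      obtain ⟨hX1, hX2, hX3⟩ := hX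
      have e : d - (d + 1) = -1 := by ring
      rw [e] at hX2 hX3 ⊢
      refine ⟨?_, ?_, ?_⟩
      · have hT1 := t.isLE_shift T d (-1) (d + 1) (by ring)
        exact t.isLE₂ _ (inv_rot_of_distTriang _ mem) (d + 1) hT1 hX1
      · refine HV.shift_left 1 (-1) (hv_of_hom ?_) (by norm_num)
        intro φ
        have hnz : (𝟙 T : T ⟶ T) ≠ 0 := by
          intro h0
          apply hf
          rw [← Category.comp_id f, h0, comp_zero]
        obtain ⟨c, hc⟩ := (finrank_eq_one_iff_of_nonzero' (𝟙 T : T ⟶ T) hnz).1 h1 (δ ≫ φ)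
        have h2 : f ≫ δ = 0 := comp_distTriang_mor_zero₂₃ _ mem
        have h3 : c • f = 0 := by
          have : f ≫ (δ ≫ φ) = 0 := by rw [← Category.assoc, h2, zero_comp]
          rw [← hc, Linear.comp_smul, Category.comp_id] at this
          exact this
        have hc0 : c = 0 := by
          rcases smul_eq_zero.1 h3 with h | h
          · exact h
          · exact absurd h hf
        have h4 : δ ≫ φ = 0 := by rw [← hc, hc0, zero_smul]
        obtain ⟨(ψ : X⟦(1 : ℤ)⟧ ⟶ T), (hψ : φ = (-i⟦(1 : ℤ)⟧') ≫ ψ)⟩ :=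
          Triangle.yoneda_exact₃ _ (rot_of_distTriang _ mem) φ h4
        rw [hψ, hv_hom (hX2.to_shift 1 0 (by norm_num)) ψ, comp_zero]
      · refine HV.shift_left 1 (-1) (hv_of_hom ?_) (by norm_num)
        intro φ
        have h4 : δ ≫ φ = 0 := hv_hom hTT' _
        obtain ⟨(ψ : X⟦(1 : ℤ)⟧ ⟶ T'), (hψ : φ = (-i⟦(1 : ℤ)⟧') ≫ ψ)⟩ :=
          Triangle.yoneda_exact₃ _ (rot_of_distTriang _ mem) φ h4
        rw [hψ, hv_hom (hX3.to_shift 1 0 (by norm_num)) ψ, comp_zero]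
  refine ⟨t', hle, key P Q hP hQ hPQ hP1 (Or.inl ⟨rfl, rfl⟩),
    key Q P hQ hP hQP hQ1 (Or.inr ⟨rfl, rfl⟩), ?_⟩
  intro T p hT hTP hTQ
  have hTle := hT.le
  have hTge := hT.ge
  refine ⟨(hle _ _).2 ⟨hTle, hTP _, hTQ _⟩, ?_, ?_⟩
  · rw [hge]
    intro Z hZ φ
    have := hZ.1
    exact t.zero φ (p - 1) p
  · intro X F i f δ mem hX hf
    rw [hle] at hX ⊢
    exact ⟨hT.epi _ _ _ mem hX.1 hf, hv_fib mem rfl hX.2.1 (hTP _), hv_fib mem rfl hX.2.2 (hTQ _)⟩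

end Pool.Agent.Helper73.KU
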