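import Pool.Agent.Helper73.KU.M2

/-! Happel-Reiten-Smalo tilt in a triangulated category. -/

namespace Pool.Agent.Helper73.KU

open CategoryTheory CategoryTheory.Limits CategoryTheory.Pretriangulated Module
open CategoryTheory.Triangulated
open Pool.Agent.Helper6.KE Pool.Agent.Helper6.NS
open scoped ZeroObject

universe v u

variable {C : Type u} [Category.{v} C] [Preadditive C] [HasZeroObject C] [HasShift C ℤ]
  [∀ n : ℤ, (shiftFunctor C n).Additive] [Pretriangulated C]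

/-- the aisle -/
def GLE (t : TStructure C) (Fr : C → Prop) (n : ℤ) : ObjectProperty C :=
  fun X => t.IsLE X n ∧ ∀ F', Fr F' → HV X F' (-n)

theorem GLE_iso {t : TStructure C} {Fr : C → Prop} {n : ℤ} {X Y : C} (e : X ≅ Y)
    (h : GLE t Fr n X) : GLE t Fr n Y := by
  obtain ⟨h1, h2⟩ := h
  exact ⟨t.isLE_of_iso e n, fun F' hF' => (h2 F' hF').of_iso_left e.symm⟩

theorem GLE_shift {t : TStructure C} {Fr : C → Prop} {n a n' : ℤ} (hn : a + n' = n) {X : C}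
    (h : GLE t Fr n X) : GLE t Fr n' (X⟦a⟧) := by
  obtain ⟨h1, h2⟩ := h
  exact ⟨t.isLE_shift X n a n' hn, fun F' hF' => (h2 F' hF').to_shift a _ (by omega)⟩

/-- the tilted t-structure -/
noncomputable def tiltG [IsTriangulated C] (t : TStructure C) (Fr : C → Prop)
    (hF : ∀ F, Fr F → t.IsGE F 0)
    (hdec : ∀ X, t.IsLE X 0 → ∃ (U F : C) (f : U ⟶ X) (g : X ⟶ F) (δ : F ⟶ U⟦(1 : ℤ)⟧),
      Triangle.mk f g δ ∈ distTriang C ∧ t.IsLE U 0 ∧ t.IsGE F 0 ∧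
      (∀ F', Fr F' → ∀ h : U ⟶ F', h = 0) ∧
      (∀ U', t.IsLE U' 0 → (∀ F', Fr F' → ∀ h : U' ⟶ F', h = 0) → ∀ h : U' ⟶ F, h = 0)) :
    TStructure C where
  le n := GLE t Fr n
  ge n := fun Y => ∀ X, GLE t Fr (n - 1) X → ∀ φ : X ⟶ Y, φ = 0
  le_isClosedUnderIsomorphisms n := ⟨fun e h => GLE_iso e h⟩
  ge_isClosedUnderIsomorphisms n := ⟨fun {Y Y'} e h => by
    intro X hX φ
    have := h X hX (φ ≫ e.inv)
    rw [← cancel_mono e.inv, this, zero_comp]⟩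
  le_shift n a n' hn X hX := GLE_shift hn hX
  ge_shift n a n' hn Y hY := by
    intro X hX φ
    have h1 : GLE t Fr (n - 1) (X⟦-a⟧) := GLE_shift (by omega) hX
    let e : (Y⟦a⟧)⟦-a⟧ ≅ Y := (shiftEquiv C a).unitIso.symm.app Y
    have h2 := hY _ h1 (φ⟦-a⟧' ≫ e.hom)
    apply (shiftFunctor C (-a)).map_injective
    rw [Functor.map_zero, ← cancel_mono e.hom, h2, zero_comp]
  zero' X Y f hX hY := by
    refine hY X ?_ f
    simpa using hX
  le_zero_le := by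
    intro X hX
    have h1 := hX.1
    exact ⟨t.isLE_of_le X 0 1, fun F' hF' => hv_t t 0 0 (-1) h1 (hF F' hF') (by omega)⟩
  ge_one_le := by
    intro Y hY X hX φ
    refine hY X ?_ φ
    have h1 := hX.1
    exact ⟨t.isLE_of_le X (0 - 1) (1 - 1),
      fun F' hF' => hv_t t (0 - 1) 0 (-(1 - 1)) h1 (hF F' hF') (by omega)⟩
  exists_triangle_zero_one A := by
    obtain ⟨X0, Y0, hX0, hY0, f0, g0, h0, mem0⟩ := t.exists_triangle_zero_one A
    have hX0' : t.IsLE X0 0 := ⟨hX0⟩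
    have hY0' : t.IsGE Y0 1 := ⟨hY0⟩
    obtain ⟨U, F, f, g, δ, mem, hU, _, hUF, hF0⟩ := hdec X0 hX0'
    have h1 : ∃ (X Y : C) (_ : GLE t Fr 0 X) (_ : ∀ X, GLE t Fr 0 X → ∀ φ : X ⟶ Y, φ = 0)
        (f : X ⟶ X0) (g : X0 ⟶ Y) (h : Y ⟶ X⟦(1 : ℤ)⟧), Triangle.mk f g h ∈ distTriang C := by
      refine ⟨U, F, ⟨hU, ?_⟩, ?_, f, g, δ, mem⟩
      · intro F' hF'
        rw [neg_zero]
        exact hv_of_hom (hUF F' hF')
      · intro X hX
        refine hF0 X hX.1 (fun F' hF' => hv_hom ?_)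
        have := hX.2 F' hF'
        rwa [neg_zero] at this
    have h2 := dec_ext _ mem0 (fun X hX φ => by
      have := hX.1
      exact t.zero φ 0 1) h1
    simpa using h2

/-- G1: Happel-Reiten-Smalo tilt. -/
theorem tilt_gen [IsTriangulated C] (t : TStructure C) (Fr : C → Prop)
    (hF : ∀ F, Fr F → t.IsGE F 0)
    (hdec : ∀ X, t.IsLE X 0 → ∃ (U F : C) (f : U ⟶ X) (g : X ⟶ F) (δ : F ⟶ U⟦(1 : ℤ)⟧),
      Triangle.mk f g δ ∈ distTriang C ∧ t.IsLE U 0 ∧ t.IsGE F 0 ∧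
      (∀ F', Fr F' → ∀ h : U ⟶ F', h = 0) ∧
      (∀ U', t.IsLE U' 0 → (∀ F', Fr F' → ∀ h : U' ⟶ F', h = 0) → ∀ h : U' ⟶ F, h = 0)) :
    ∃ t' : TStructure C, (∀ X n, t'.IsLE X n ↔ t.IsLE X n ∧ ∀ F', Fr F' → HV X F' (-n)) := by
  refine ⟨tiltG t Fr hF hdec, ?_⟩
  intro X n
  rw [← (tiltG t Fr hF hdec).le_iff_isLE]
  exact Iff.rfl

end Pool.Agent.Helper73.KU
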